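import Pool.Agent.H65.G4.Ears
import Pool.Agent.H1.G4.PcChk
import Pool.Agent.H80.G4.Rev

/-!
# The path contraction at the two quad corners of the word `2q2q`

`u` has the in-spokes `x0`, `i`, the out-spokes `o`, `x3`, the quad corners `(i, o)` and
`(x3, x0)`, and the ring arcs `i → x0`, `o → x3` (`core_2q2q`, corner 1) or `x0 → i`, `x3 → o`
(`core_2q2q'`, corner 3).
-/

set_option autoImplicit false

namespace Pool.Agent.H95.G4

open Relation Pool.Agent.H13.DA Pool.Agent.H72.G4 Pool.Agent.H21.G4 Pool.Agent.H13.G4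
  Pool.Agent.H55.G4 Pool.Agent.H65.G4 Pool.Agent.H80.G4

variable {V : Type*} [DecidableEq V] {T : Finset (V × V × V)} {D : V → V → Prop} {a b c : V}

/-- six names -/
def nm6 (x0 x1 x2 x3 x4 x5 : V) : ℕ → V
  | 0 => x0
  | 1 => x1
  | 2 => x2
  | 3 => x3
  | 4 => x4
  | _ => x5

theorem nm6_inj {x0 x1 x2 x3 x4 x5 : V} (h01 : x0 ≠ x1) (h02 : x0 ≠ x2) (h03 : x0 ≠ x3)
    (h04 : x0 ≠ x4) (h05 : x0 ≠ x5) (h12 : x1 ≠ x2) (h13 : x1 ≠ x3) (h14 : x1 ≠ x4)
    (h15 : x1 ≠ x5) (h23 : x2 ≠ x3) (h24 : x2 ≠ x4) (h25 : x2 ≠ x5) (h34 : x3 ≠ x4)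
    (h35 : x3 ≠ x5) (h45 : x4 ≠ x5) (x y : ℕ) (hx : x < 6) (hy : y < 6)
    (h : nm6 x0 x1 x2 x3 x4 x5 x = nm6 x0 x1 x2 x3 x4 x5 y) : x = y := by
  interval_cases x <;> interval_cases y <;> simp only [nm6] at h <;>
    first
      | rfl
      | exact absurd h (by assumption)
      | exact absurd h.symm (by assumption)

/-- **corner 1 of `2q2q`** -/
theorem core_2q2q [Infinite V] (hM : MCw T D a b c) (hT : Ts T D a b c) {u o s i d x0 x3 : V}
    (h : Qd T D u o s i d) (hg : Good T D u) (hb : Pcb T D u o s i d) (hu : ¬ Tr a b c u)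
    (ho : ¬ Tr a b c o) (hi : ¬ Tr a b c i)
    (hN : ∀ z, Ar D u z ↔ z = x0 ∨ z = i ∨ z = o ∨ z = x3) (d0 : D x0 u) (d3 : D u x3)
    (r0 : D i x0) (r3 : D o x3) (n03 : ¬ Ar D x0 x3) : False := by
  obtain ⟨e1, e2, e3, e4, e5, e6, e7, e8, e9, e10⟩ := h.ne hT
  have as := hT.pl.asymm
  have tri := hT.pl.tri
  have irr : ∀ x, ¬ D x x := fun x k => as x x k k
  have x0u : x0 ≠ u := by rintro rfl; exact irr _ d0
  have x3u : x3 ≠ u := by rintro rfl; exact irr _ d3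
  have x0o : x0 ≠ o := by rintro rfl; exact as _ _ d0 h.uo
  have x0i : x0 ≠ i := by rintro rfl; exact irr _ r0
  have x0s : x0 ≠ s := by rintro rfl; exact tri _ _ _ d0 h.uo h.os
  have x3o : x3 ≠ o := by rintro rfl; exact irr _ r3
  have x3i : x3 ≠ i := by rintro rfl; exact as _ _ d3 h.iu
  have x3s : x3 ≠ s := by rintro rfl; exact tri _ _ _ d3 h.si h.iu
  have x03 : x0 ≠ x3 := by rintro rfl; exact as _ _ d0 d3
  have x0d : x0 ≠ d := by rintro rfl; exact h.nd ⟨u, Or.inl d0⟩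
  have x3d : x3 ≠ d := by rintro rfl; exact h.nd ⟨u, Or.inr d3⟩
  have W0 : ¬ Wq o s i d x0 := by
    rintro (k | k | k | k)
    · exact x0o k
    · exact x0s k
    · exact x0i k
    · exact x0d k
  have W3 : ¬ Wq o s i d x3 := by
    rintro (k | k | k | k)
    · exact x3o k
    · exact x3s k
    · exact x3i k
    · exact x3d k
  have Wo : Wq o s i d o := Or.inl rfl
  have Wi : Wq o s i d i := Or.inr (Or.inr (Or.inl rfl))
  have A0 : Adj T u x0 := hT.pl.ar_adj (Or.inr d0)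
  have A3 : Adj T u x3 := hT.pl.ar_adj (Or.inl d3)
  have ns : ∀ z, Adj T u z → z ≠ o → z ≠ i → z ≠ d → ¬ Adj T s z := by
    intro z k1 k2 k3 k4 k5
    rcases hb.n2 z k1 k5 with k | k | k
    · exact k2 k
    · exact k3 k
    · exact k4 k
  have n0s : ¬ Ar D x0 s := fun k => ns x0 A0 x0o x0i x0d (hT.pl.ar_adj k).symm
  have n0o : ¬ D x0 o := by
    intro k
    -- two corners of the path: the arc would be a directed path of length two at `o, i`
    have := hb.n1 x0 (hT.pl.ar_adj (Or.inr k)) (hT.pl.ar_adj (Or.inl r0))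
    rcases this with k | k | k
    · exact x0u k
    · exact x0s k
    · exact x0d k
  obtain ⟨has, htr⟩ := ears (A := fun x y => x = x3 ∧ y = x0) hT h hg hb
    (by
      rintro x y ⟨rfl, rfl⟩
      exact ⟨Or.inr ⟨Or.inl d3, x3o, x3i⟩, Or.inr ⟨Or.inr d0, x0o, x0i⟩, x03.symm⟩)
    (by
      rintro x y ⟨rfl, rfl⟩
      refine ⟨fun k => x03 k.1, ?_⟩
      rintro x' y' (rfl | ⟨k, -⟩) (rfl | ⟨k', -⟩) k2
      · exact n03 (Or.inl k2)
      · exact x0s k'
      · exact x3s k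
      · exact x3s k)
    (by
      rintro x y m ⟨rfl, rfl⟩ hm m1 m2 k1 k2
      have hms : m = s := by
        rcases hm with hm | ⟨hm, hm1, hm2⟩
        · exact hm
        · rcases (hN m).1 hm with k | k | k | k
          · exact absurd k m2
          · exact absurd k hm2
          · exact absurd k hm1
          · exact absurd k m1
      subst hms
      rcases k1 with k1 | ⟨x', y', (rfl | ⟨k, -⟩), k1, k3⟩
      · exact x03 k1.1
      · rcases k1 with rfl | ⟨-, rfl | rfl⟩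
        · exact n0s (Or.inl k3)
        · exact n0o k3
        · exact as _ _ k3 r0
      · exact x0s k)
    (by
      rintro x y ⟨rfl, rfl⟩ x' y' (rfl | ⟨k, -⟩) _ k1
      · exact absurd k1 (as _ _ d3)
      · exact absurd k x3s)
    (by
      rintro x m ⟨k, -⟩
      exact absurd k.symm x3s)
    (by
      rintro x m ⟨-, k⟩
      exact absurd k.symm x0s)
  refine pc_fill hM hT h hu (w := s) (y1 := o) (y2 := i) (p0 := x0)
    (Or.inr (Or.inl ⟨rfl, Or.inl ⟨rfl, rfl⟩⟩)) ho hi hb.n1 hb.n2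
    (A := fun x y => x = x3 ∧ y = x0) (Or.inr ⟨A0, W0⟩) ?_ has htr ?_
  · rintro x y ⟨rfl, rfl⟩
    exact ⟨⟨u, Or.inr d3⟩, ⟨u, Or.inl d0⟩, x3u, x0u, Or.inr ⟨rp_out W0, _, A3, rfl⟩⟩
  · intro O hO hE
    refine pc_lift hT h Pool.Agent.H1.G4.chk_2q2q_1 (by decide)
      (n := nm6 s x0 x3 o i u)
      (fun x y hx hy => nm6_inj x0s.symm x3s.symm e5.symm e8 e2.symm x03 x0o x0i x0u x3o x3i x3u
        e6 e1.symm e3.symm x y hx hy) rfl rfl rfl rfl ?_ ?_ (A := fun x y => x = x3 ∧ y = x0)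
      hO hE ?_
    · intro x hx
      rcases (hN x).1 (Or.inr hx) with rfl | rfl | rfl | rfl
      · exact ⟨1, by decide, rfl, by decide⟩
      · exact ⟨4, by decide, rfl, by decide⟩
      · exact absurd hx (as _ _ h.uo)
      · exact absurd hx (as _ _ d3)
    · intro x hx
      rcases (hN x).1 (Or.inl hx) with rfl | rfl | rfl | rfl
      · exact absurd hx (as _ _ d0)
      · exact absurd hx (as _ _ h.iu)
      · exact ⟨3, by decide, rfl, by decide⟩
      · exact ⟨2, by decide, rfl, by decide⟩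
    · refine pre_of (E := [(0, 1), (0, 2), (2, 1)]) (F := []) ?_ (by simp) _ 0 (by decide)
      have g1 : Ex O s x0 := hE _ _ ⟨x0s.symm, i, x0, rp_in Wi, rp_out W0,
        Or.inl ⟨r0, e3.symm, x0u⟩⟩
      have g2 : Ex O s x3 := hE _ _ ⟨x3s.symm, o, x3, rp_in Wo, rp_out W3,
        Or.inl ⟨r3, e1.symm, x3u⟩⟩
      have g3 : Ex O x3 x0 := hE _ _ ⟨x03.symm, x3, x0, rp_out W3, rp_out W0,
        Or.inr ⟨rfl, rfl⟩⟩
      intro p hp
      simp only [List.mem_cons, List.not_mem_nil, or_false] at hp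
      rcases hp with rfl | rfl | rfl
      · exact g1
      · exact g2
      · exact g3

omit [DecidableEq V] in
theorem Qd_rev {u o s i d : V} (h : Qd T D u o s i d) : Qd T (Rev D) u i s o d :=
  ⟨h.iu, h.si, h.os, h.uo, fun k => h.nd (re_rev.1 k), fun q => (h.adj q).trans (by tauto)⟩

omit [DecidableEq V] in
theorem Wq_rev {o s i d x : V} : Wq i s o d x ↔ Wq o s i d x := by
  unfold Wq
  tauto

omit [DecidableEq V] in
theorem Pcb_rev {u o s i d : V} (h : Pcb T D u o s i d) : Pcb T (Rev D) u i s o d where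
  n1 q h1 h2 := h.n1 q h2 h1
  n2 q h1 h2 := by
    have := h.n2 q h1 h2
    tauto
  e2 x y z hx hz hy hyu h1 h2 := h.e2 z y x (by tauto) (by tauto) (fun k => hy (Wq_rev.2 k)) hyu
    h2 h1
  e3 x y z t hx ht hy hz hyu hzu h1 h2 h3 := h.e3 t z y x (by tauto) (by tauto)
    (fun k => hz (Wq_rev.2 k)) (fun k => hy (Wq_rev.2 k)) hzu hyu h3 h2 h1

/-- **corner 3 of `2q2q`** -/
theorem core_2q2q' [Infinite V] (hM : MCw T D a b c) (hT : Ts T D a b c) {u o s i d x0 x3 : V}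
    (h : Qd T D u o s i d) (hg : Good T D u) (hb : Pcb T D u o s i d) (hu : ¬ Tr a b c u)
    (ho : ¬ Tr a b c o) (hi : ¬ Tr a b c i)
    (hN : ∀ z, Ar D u z ↔ z = x0 ∨ z = i ∨ z = o ∨ z = x3) (d0 : D x0 u) (d3 : D u x3)
    (r0 : D x0 i) (r3 : D x3 o) (n03 : ¬ Ar D x0 x3) : False :=
  core_2q2q (D := Rev D) (mcw_rev.2 hM) (ts_rev.2 hT) (Qd_rev h) (good_rev.2 hg) (Pcb_rev hb) hu
    hi ho (x0 := x3) (x3 := x0) (fun z => (ar_rev.trans (hN z)).trans (by tauto)) d3 d0 r3 r0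
    (fun k => n03 (ar_symm (ar_rev.1 k)))

end Pool.Agent.H95.G4
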