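import Pool.Agent.H42.G4.Cuts4

/-!
# An inner vertex of degree four with two adjacent quads is reducible

Link: `x0`, `x1`, `x2` in, `x3` out, the corners `(x2, x3)` and `(x3, x0)` are quads.
-/

set_option autoImplicit false

namespace Pool.Agent.H95.G4

open Relation Pool.Agent.H13.DA Pool.Agent.H72.G4 Pool.Agent.H55.G4 Pool.Agent.H42.G4

variable {V : Type*} {T : Finset (V × V × V)} {D : V → V → Prop} {a b c : V}

theorem chk_LLQQ : chk [(0,0,0,0),(0,1,0,0),(0,2,0,0),(2,1,0,0)] [St.free 7 8] = true := by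
  decide +kernel

theorem chk_LQQR : chk [(0,0,0,0),(0,1,0,0),(2,0,0,0),(2,5,0,0)] [St.free 7 8] = true := by
  decide +kernel

private lemma lt2 {m x : ℕ} (h : m < 4) (hx : m.testBit x = true) : x < 2 := tb_lt (N := 2) h hx
private lemma lt3 {m x : ℕ} (h : m < 8) (hx : m.testBit x = true) : x < 3 := tb_lt (N := 3) h hx
private lemma lt1 {m x : ℕ} (h : m < 2) (hx : m.testBit x = true) : x < 1 := tb_lt (N := 1) h hx
private lemma lt0 {x : ℕ} {p : Prop} (hx : (0 : ℕ).testBit x = true) : p := by simp at hx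

/-- cuts for the word `LLQQ` -/
theorem cuts_LLQQ {v x0 x1 x2 x3 : V} (h12 : x0 ≠ x1) (h13 : x0 ≠ x2) (h14 : x0 ≠ x3)
    (h1 : x0 ≠ v) (h23 : x1 ≠ x2) (h24 : x1 ≠ x3) (h2 : x1 ≠ v) (h34 : x2 ≠ x3) (h3 : x2 ≠ v)
    (h4 : x3 ≠ v) (hin : ∀ x, D x v → x = x0 ∨ x = x1 ∨ x = x2) (hout : ∀ x, D v x → x = x3)
    (O : Fin 3 → V → V → Prop) (hO : ∀ i, STO (O i)) (e10 : Ex O x1 x0) (e21 : Ex O x2 x1)
    (e30 : Ex O x3 x0) (e13 : Ex O x1 x3) : Cuts D v O := by
  obtain ⟨Q, q1, q2, q3⟩ := conf [(0,0,0,0),(0,1,0,0),(0,2,0,0),(2,1,0,0)] [St.free 7 8] chk_LLQQ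
    (nm x0 x1 x2 x3 v) (nm_inj h12 h13 h14 h1 h23 h24 h2 h34 h3 h4) trivial O hO (by
      refine ⟨fun x hx => lt0 hx, fun x hx => lt0 hx, fun x hx => lt0 hx, fun x hx => lt0 hx,
        fun x hx => lt0 hx, fun x hx => ?_, fun x hx => lt0 hx, fun x hx => lt0 hx,
        fun x hx => lt0 hx, fun x hx => ?_, fun x hx => lt0 hx, fun x hx => lt0 hx,
        fun x hx => ?_, fun x hx => ?_, fun x hx => lt0 hx, fun x hx => lt0 hx, trivial⟩
      · have h := lt1 (by norm_num) hx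
        interval_cases x
        exact ⟨by norm_num, e10⟩
      · have h := lt2 (by norm_num) hx
        interval_cases x
        · exact absurd hx (by decide)
        · exact ⟨by norm_num, e21⟩
      · have h := lt2 (by norm_num) hx
        interval_cases x
        · exact absurd hx (by decide)
        · exact ⟨by norm_num, e13⟩
      · have h := lt1 (by norm_num) hx
        interval_cases x
        exact ⟨by norm_num, e30⟩)
  obtain ⟨q3, q4, -⟩ := q3
  refine cuts_of q1 ?_ ?_ ?_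
  · intro i x y hx hy
    refine q2 i x y fun k hk1 hk2 => ?_
    have : k = 4 := by
      have e1 : 4 ≤ k := hk1
      have e2 : k < 4 + 1 := hk2
      omega
    subst this
    exact ⟨hx, hy⟩
  · intro x hx
    rcases hin x hx with rfl | rfl | rfl
    · exact q3 0 (by decide) (by decide)
    · exact q3 1 (by decide) (by decide)
    · exact q3 2 (by decide) (by decide)
  · intro x hx
    rw [hout x hx]
    exact q4 3 (by decide) (by decide)

/-- cuts for the word `LQQR` -/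
theorem cuts_LQQR {v x0 x1 x2 x3 : V} (h12 : x0 ≠ x1) (h13 : x0 ≠ x2) (h14 : x0 ≠ x3)
    (h1 : x0 ≠ v) (h23 : x1 ≠ x2) (h24 : x1 ≠ x3) (h2 : x1 ≠ v) (h34 : x2 ≠ x3) (h3 : x2 ≠ v)
    (h4 : x3 ≠ v) (hin : ∀ x, D x v → x = x0 ∨ x = x1 ∨ x = x2) (hout : ∀ x, D v x → x = x3)
    (O : Fin 3 → V → V → Prop) (hO : ∀ i, STO (O i)) (e10 : Ex O x1 x0) (e12 : Ex O x1 x2)
    (e30 : Ex O x3 x0) (e32 : Ex O x3 x2) (e13 : Ex O x1 x3) : Cuts D v O := by
  obtain ⟨Q, q1, q2, q3⟩ := conf [(0,0,0,0),(0,1,0,0),(2,0,0,0),(2,5,0,0)] [St.free 7 8] chk_LQQR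
    (nm x0 x1 x2 x3 v) (nm_inj h12 h13 h14 h1 h23 h24 h2 h34 h3 h4) trivial O hO (by
      refine ⟨fun x hx => lt0 hx, fun x hx => lt0 hx, fun x hx => lt0 hx, fun x hx => lt0 hx,
        fun x hx => lt0 hx, fun x hx => ?_, fun x hx => lt0 hx, fun x hx => lt0 hx,
        fun x hx => ?_, fun x hx => lt0 hx, fun x hx => lt0 hx, fun x hx => lt0 hx,
        fun x hx => ?_, fun x hx => ?_, fun x hx => lt0 hx, fun x hx => lt0 hx, trivial⟩
      · have h := lt1 (by norm_num) hx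
        interval_cases x
        exact ⟨by norm_num, e10⟩
      · have h := lt2 (by norm_num) hx
        interval_cases x
        · exact absurd hx (by decide)
        · exact ⟨by norm_num, e12⟩
      · have h := lt2 (by norm_num) hx
        interval_cases x
        · exact absurd hx (by decide)
        · exact ⟨by norm_num, e13⟩
      · have h := lt3 (by norm_num) hx
        interval_cases x
        · exact ⟨by norm_num, e30⟩
        · exact absurd hx (by decide)
        · exact ⟨by norm_num, e32⟩)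
  obtain ⟨q3, q4, -⟩ := q3
  refine cuts_of q1 ?_ ?_ ?_
  · intro i x y hx hy
    refine q2 i x y fun k hk1 hk2 => ?_
    have : k = 4 := by
      have e1 : 4 ≤ k := hk1
      have e2 : k < 4 + 1 := hk2
      omega
    subst this
    exact ⟨hx, hy⟩
  · intro x hx
    rcases hin x hx with rfl | rfl | rfl
    · exact q3 0 (by decide) (by decide)
    · exact q3 1 (by decide) (by decide)
    · exact q3 2 (by decide) (by decide)
  · intro x hx
    rw [hout x hx]
    exact q4 3 (by decide) (by decide)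

/-- Both words at once: `x1 > x0` and (`x2 > x1` or `x1 > x2`). The hypothesis `hd` says that no
dummy lies at the corner `x1 v x3`. -/
theorem red_adj [DecidableEq V] (hF : FanT V) (hM : MCw T D a b c) (hT : Ts T D a b c) {v x0 x1 x2 x3 : V}
    (hv : ¬ Tr a b c v) (hg : Good T D v)
    (hN : ∀ u, Ar D v u ↔ u = x0 ∨ u = x1 ∨ u = x2 ∨ u = x3)
    (d0 : D x0 v) (d1 : D x1 v) (d2 : D x2 v) (d3 : D v x3) (r10 : D x1 x0) (r12 : Ar D x1 x2)
    (e02 : x0 ≠ x2) (n02 : ¬ Ar D x0 x2) (n03 : ¬ Ar D x0 x3) (n13 : ¬ Ar D x1 x3)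
    (n23 : ¬ Ar D x2 x3)
    (hd : ∀ d, ¬ Re D d → Adj T d v → Adj T d x1 → ¬ Adj T d x3) : False := by
  have cx := hT.pl.disc.cx
  have irr : ∀ x, ¬ D x x := fun x h => hT.pl.asymm x x h h
  have as := hT.pl.asymm
  have tri := hT.pl.tri
  have e0 : x0 ≠ v := by rintro rfl; exact irr _ d0
  have e1 : x1 ≠ v := by rintro rfl; exact irr _ d1
  have e2 : x2 ≠ v := by rintro rfl; exact irr _ d2
  have e3 : x3 ≠ v := by rintro rfl; exact irr _ d3
  have e01 : x0 ≠ x1 := by rintro rfl; exact irr _ r10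
  have e12 : x1 ≠ x2 := by
    rintro rfl
    rcases r12 with h | h <;> exact irr _ h
  have e03 : x0 ≠ x3 := by rintro rfl; exact as _ _ d0 d3
  have e13 : x1 ≠ x3 := by rintro rfl; exact as _ _ d1 d3
  have e23 : x2 ≠ x3 := by rintro rfl; exact as _ _ d2 d3
  have hin : ∀ x, D x v → x = x0 ∨ x = x1 ∨ x = x2 := by
    intro x hx
    rcases (hN x).1 (Or.inr hx) with rfl | rfl | rfl | rfl
    · exact Or.inl rfl
    · exact Or.inr (Or.inl rfl)
    · exact Or.inr (Or.inr rfl)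
    · exact absurd hx (as _ _ d3)
  have hout : ∀ x, D v x → x = x3 := by
    intro x hx
    rcases (hN x).1 (Or.inl hx) with rfl | rfl | rfl | rfl
    · exact absurd hx (as _ _ d0)
    · exact absurd hx (as _ _ d1)
    · exact absurd hx (as _ _ d2)
    · rfl
  -- no path `x3 → o → x1`
  have key1 : ∀ o, o ≠ v → D x3 o → D o x1 → False := by
    intro o ho h1 h2
    rcases hg x1 x3 o (Or.inr d1) (Or.inl d3) e13 n13 ho (Or.inr h2) (Or.inl h1) with
      h | ⟨d, g1, g2, g3, g4, g5⟩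
    · rcases (hN o).1 h with rfl | rfl | rfl | rfl
      · exact n03 (Or.inr h1)
      · exact irr _ h2
      · exact n23 (Or.inr h1)
      · exact irr _ h1
    · exact hd d g1 g2 g3 g4
  -- no path `x0 → o → x3`
  have key0 : ∀ o, o ≠ v → D x0 o → D o x3 → False := by
    intro o ho h1 h2
    rcases good_common hT hg (Or.inl d3) (Or.inr d0) e03.symm (fun h => n03 (ar_symm h)) ho
      (Or.inr h2) (Or.inl h1) with h | h | h
    · rcases (hN o).1 h with rfl | rfl | rfl | rfl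
      · exact irr _ h1
      · exact as _ _ r10 h1
      · exact n02 (Or.inl h1)
      · exact irr _ h2
    · exact as _ _ d3 h.1
    · exact as _ _ h2 h.2.2.1
  -- no path `x2 → o → x3` if `x1 > x2`
  have key2 : D x1 x2 → ∀ o, o ≠ v → D x2 o → D o x3 → False := by
    intro r o ho h1 h2
    rcases good_common hT hg (Or.inl d3) (Or.inr d2) e23.symm (fun h => n23 (ar_symm h)) ho
      (Or.inr h2) (Or.inl h1) with h | h | h
    · rcases (hN o).1 h with rfl | rfl | rfl | rfl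
      · exact n02 (Or.inr h1)
      · exact as _ _ r h1
      · exact irr _ h1
      · exact irr _ h2
    · exact as _ _ d3 h.1
    · exact as _ _ h2 h.2.2.1
  let A : V → V → Prop := fun x y =>
    (x = x1 ∧ y = x3) ∨ (x = x3 ∧ y = x0) ∨ (x = x3 ∧ y = x2 ∧ D x1 x2)
  have nA : ∀ x y, A x y → ¬ Ar D x y := by
    rintro x y (⟨rfl, rfl⟩ | ⟨rfl, rfl⟩ | ⟨rfl, rfl, -⟩)
    · exact n13
    · exact fun h => n03 (ar_symm h)
    · exact fun h => n23 (ar_symm h)
  refine del_fill hF hM hT (v := v) (p := x3) (A := A) hv ⟨x3, Or.inl d3⟩ (Or.inl d3)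
    ?_ ?_ ?_ ?_
  · rintro x y (⟨rfl, rfl⟩ | ⟨rfl, rfl⟩ | ⟨rfl, rfl, -⟩)
    · exact Or.inr ⟨rfl, Or.inr d1, e13⟩
    · exact Or.inl ⟨rfl, Or.inr d0, e03⟩
    · exact Or.inl ⟨rfl, Or.inr d2, e23⟩
  · rintro x y (h | h) (h' | h')
    · exact as _ _ h.1 h'.1
    · exact nA _ _ h' (Or.inr h.1)
    · exact nA _ _ h (Or.inr h'.1)
    · rcases h with ⟨rfl, rfl⟩ | ⟨rfl, rfl⟩ | ⟨rfl, rfl, -⟩
      · rcases h' with ⟨-, h⟩ | ⟨-, h⟩ | ⟨-, h, -⟩
        · exact e13 h
        · exact e01 h.symm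
        · exact e12 h
      · rcases h' with ⟨h, -⟩ | ⟨h, -⟩ | ⟨h, -, -⟩
        · exact e01 h
        · exact e03 h
        · exact e03 h
      · rcases h' with ⟨h, -⟩ | ⟨h, -⟩ | ⟨h, -, -⟩
        · exact e12 h.symm
        · exact e23 h
        · exact e23 h
  · have new1 : ∀ o, Fil D v A x3 o → Fil D v A o x1 → False := by
      rintro o h1 (h2 | ⟨-, h2⟩ | ⟨-, h2⟩ | ⟨-, h2, -⟩)
      · rcases h1 with h1 | ⟨h1, -⟩ | ⟨-, h1⟩ | ⟨-, h1, h1'⟩
        · exact key1 o h1.2.2 h1.1 h2.1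
        · exact e13 h1.symm
        · subst h1
          exact as _ _ r10 h2.1
        · subst h1
          exact as _ _ h1' h2.1
      · exact e13 h2
      · exact e01 h2.symm
      · exact e12 h2
    have new0 : ∀ o, Fil D v A x0 o → Fil D v A o x3 → False := by
      rintro o (h1 | ⟨h1, -⟩ | ⟨h1, -⟩ | ⟨h1, -, -⟩) h2
      · rcases h2 with h2 | ⟨h2, -⟩ | ⟨-, h2⟩ | ⟨-, h2, -⟩
        · exact key0 o h1.2.2 h1.1 h2.1
        · subst h2
          exact as _ _ r10 h1.1
        · exact e03 h2.symm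
        · exact e23 h2.symm
      · exact e01 h1
      · exact e03 h1
      · exact e03 h1
    have new2 : D x1 x2 → ∀ o, Fil D v A x2 o → Fil D v A o x3 → False := by
      rintro r o (h1 | ⟨h1, -⟩ | ⟨h1, -⟩ | ⟨h1, -, -⟩) h2
      · rcases h2 with h2 | ⟨h2, -⟩ | ⟨-, h2⟩ | ⟨-, h2, -⟩
        · exact key2 r o h1.2.2 h1.1 h2.1
        · subst h2
          exact as _ _ r h1.1
        · exact e03 h2.symm
        · exact e23 h2.symm
      · exact e12 h1.symm
      · exact e23 h1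
      · exact e23 h1
    have new : ∀ x y z, A x y → Fil D v A y z → Fil D v A z x → False := by
      rintro x y z (⟨rfl, rfl⟩ | ⟨rfl, rfl⟩ | ⟨rfl, rfl, r⟩) h2 h3
      · exact new1 z h2 h3
      · exact new0 z h2 h3
      · exact new2 r z h2 h3
    rintro x y z h1 h2 h3
    rcases h1 with k1 | k1
    · rcases h2 with k2 | k2
      · rcases h3 with k3 | k3
        · exact tri _ _ _ k1.1 k2.1 k3.1
        · exact new z x y k3 (Or.inl k1) (Or.inl k2)
      · exact new y z x k2 h3 (Or.inl k1)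
    · exact new x y z k1 h2 h3
  · intro O hO hE
    have f10 : Ex O x1 x0 := hE _ _ (Or.inl ⟨r10, e1, e0⟩)
    have f13 : Ex O x1 x3 := hE _ _ (Or.inr (Or.inl ⟨rfl, rfl⟩))
    have f30 : Ex O x3 x0 := hE _ _ (Or.inr (Or.inr (Or.inl ⟨rfl, rfl⟩)))
    rcases r12 with r | r
    · have f12 : Ex O x1 x2 := hE _ _ (Or.inl ⟨r, e1, e2⟩)
      have f32 : Ex O x3 x2 := hE _ _ (Or.inr (Or.inr (Or.inr ⟨rfl, rfl, r⟩)))
      exact cuts_LQQR e01 e02 e03 e0 e12 e13 e1 e23 e2 e3 hin hout O hO f10 f12 f30 f32 f13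
    · have f21 : Ex O x2 x1 := hE _ _ (Or.inl ⟨r, e2, e1⟩)
      exact cuts_LLQQ e01 e02 e03 e0 e12 e13 e1 e23 e2 e3 hin hout O hO f10 f21 f30 f13

end Pool.Agent.H95.G4
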