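import Pool.Agent.H72.G4.Low
import Pool.Agent.H95.G4.Adj

/-!
# The words `22qq`, `21qq`, `11qq` are reducible, rotation form
-/

set_option autoImplicit false

namespace Pool.Agent.H95.G4

open Relation Pool.Agent.H13.DA Pool.Agent.H72.G4 Pool.Agent.H55.G4 Pool.Agent.H42.G4
open Pool.Agent.H80.G4

variable {V : Type*} [DecidableEq V] {T : Finset (V × V × V)} {D : V → V → Prop} {a b c : V}

theorem f4_a (i : Fin 4) : i + 1 + 1 ≠ i + 1 := by revert i; decide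
theorem f4_b (i : Fin 4) : i ≠ i + 1 + 1 + 1 := by revert i; decide
theorem f4_c (i : Fin 4) : i + 1 + 1 + 1 ≠ i + 1 + 1 := by revert i; decide
theorem f4_d (i : Fin 4) : i + 1 ≠ i + 1 + 1 + 1 + 1 := by revert i; decide
theorem f4_e (i : Fin 4) : i ≠ i + 1 + 1 := by revert i; decide

theorem f4_wrap (i : Fin 4) : i + 1 + 1 + 1 + 1 = i := by revert i; decide

theorem f4_cov (i u : Fin 4) : u = i ∨ u = i + 1 ∨ u = i + 1 + 1 ∨ u = i + 1 + 1 + 1 := by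
  revert i u; decide

/-- the neighbours of a vertex with four spokes, counted from `i` -/
theorem nb4_at {v : V} {x : Fin 4 → V} {w : Fin 4 → CT} (R : Rot T D v 3 x w) (i : Fin 4)
    (u : V) : Ar D v u ↔
      u = x i ∨ u = x (i + 1) ∨ u = x (i + 1 + 1) ∨ u = x (i + 1 + 1 + 1) := by
  rw [R.nb]
  constructor
  · rintro ⟨j, rfl⟩
    rcases f4_cov i j with h | h | h | h <;> rw [h]
    · exact Or.inl rfl
    · exact Or.inr (Or.inl rfl)
    · exact Or.inr (Or.inr (Or.inl rfl))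
    · exact Or.inr (Or.inr (Or.inr rfl))
  · rintro (h | h | h | h) <;> exact ⟨_, h⟩

/-- two adjacent quad corners and two corners of type `s1` / `s2`, at a good inner vertex whose
spoke `x (i + 1)` is an in-spoke -/
theorem red_qq_in [Infinite V] (hM : MCw T D a b c) (hT : Ts T D a b c) {v : V}
    (hv : ¬ Tr a b c v) (hg : Good T D v) {x : Fin 4 → V} {w : Fin 4 → CT}
    (R : Rot T D v 3 x w) (i : Fin 4) (w0 : w i = CT.s1 ∨ w i = CT.s2)
    (w1 : w (i + 1) = CT.s1 ∨ w (i + 1) = CT.s2) (w2 : w (i + 1 + 1) = CT.q)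
    (w3 : w (i + 1 + 1 + 1) = CT.q) (hin : D (x (i + 1)) v) : False := by
  have hF : FanT V := Pool.Agent.H13.G4.fanT
  have as := hT.pl.asymm
  have e4 := f4_wrap i
  have c0 := R.cor i
  have c1 := R.cor (i + 1)
  have c2 := R.cor (i + 1 + 1)
  have c3 := R.cor (i + 1 + 1 + 1)
  rw [w2] at c2
  rw [w3, e4] at c3
  have nn : ∀ j k : Fin 4, k ≠ j + 1 → j ≠ k + 1 → ¬ Ar D (x j) (x k) := by
    intro j k h1 h2 h3
    rcases R.adj hT hv h3 with ⟨m, _⟩ | ⟨m, _⟩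
    · exact h1 m
    · exact h2 m
  have nq : ∀ j : Fin 4, w j = CT.q → ¬ Ar D (x j) (x (j + 1)) := by
    intro j h1 h3
    rcases R.adj hT hv h3 with ⟨_, m⟩ | ⟨m, _⟩
    · exact m h1
    · exact absurd m (hh4 j)
  have n02 : ¬ Ar D (x i) (x (i + 1 + 1)) := nn _ _ (f4_a i) (f4_b i)
  have n13 : ¬ Ar D (x (i + 1)) (x (i + 1 + 1 + 1)) :=
    nn _ _ (f4_c i) (f4_d i)
  have n23 := nq _ w2
  have n30 := nq _ w3
  rw [e4] at n30
  have hcov := R.cover hM hT hv hg i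
  -- directions
  have hx : ∀ t, t = CT.s1 ∨ t = CT.s2 → ∀ y, Cor T D v (x (i + 1)) y t → D y v := by
    rintro t (rfl | rfl) y hc
    · obtain ⟨_, ⟨h, _⟩ | ⟨_, h, _⟩⟩ := hc
      · exact absurd hin (as _ _ h)
      · exact h
    · obtain ⟨_, ⟨h, _⟩ | ⟨_, h, _⟩⟩ := hc
      · exact absurd hin (as _ _ h)
      · exact h
  have hy : ∀ t, t = CT.s1 ∨ t = CT.s2 → ∀ y, Cor T D v y (x (i + 1)) t → D y v := by
    rintro t (rfl | rfl) y hc
    · obtain ⟨_, ⟨_, h, _⟩ | ⟨h, _, _⟩⟩ := hc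
      · exact absurd hin (as _ _ h)
      · exact h
    · obtain ⟨_, ⟨_, h, _⟩ | ⟨h, _, _⟩⟩ := hc
      · exact absurd hin (as _ _ h)
      · exact h
  have d0 : D (x i) v := hy _ w0 _ c0
  have d2 : D (x (i + 1 + 1)) v := hx _ w1 _ c1
  have d3 : D v (x (i + 1 + 1 + 1)) := by
    rcases c2.2 with ⟨_, h⟩ | ⟨h, _⟩
    · exact h
    · exact absurd d2 (as _ _ h)
  have hd : ∀ d, ¬ Re D d → Adj T d v → Adj T d (x (i + 1)) → ¬ Adj T d (x (i + 1 + 1 + 1)) := by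
    intro d k1 k2 k3 _
    refine R.nodummy hT hv (i := i) ?_ ?_ k1 k2 k3
    · rcases w0 with h | h <;> rw [h] <;> decide
    · rcases w1 with h | h <;> rw [h] <;> decide
  have e02 : x i ≠ x (i + 1 + 1) := fun k => absurd (R.inj k) (f4_e i)
  -- the ring arcs
  have r0 : (w i = CT.s2 ∧ D (x (i + 1)) (x i)) ∨ (w i = CT.s1 ∧ D (x i) (x (i + 1))) := by
    rcases w0 with h | h <;> rw [h] at c0
    · obtain ⟨_, ⟨k, _, _⟩ | ⟨_, _, k⟩⟩ := c0
      · exact absurd d0 (as _ _ k)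
      · exact Or.inr ⟨h, k⟩
    · obtain ⟨_, ⟨k, _, _⟩ | ⟨_, _, k⟩⟩ := c0
      · exact absurd d0 (as _ _ k)
      · exact Or.inl ⟨h, k⟩
  have r1 : (w (i + 1) = CT.s1 ∧ D (x (i + 1)) (x (i + 1 + 1))) ∨
      (w (i + 1) = CT.s2 ∧ D (x (i + 1 + 1)) (x (i + 1))) := by
    rcases w1 with h | h <;> rw [h] at c1
    · obtain ⟨_, ⟨k, _, _⟩ | ⟨_, _, k⟩⟩ := c1
      · exact absurd hin (as _ _ k)
      · exact Or.inl ⟨h, k⟩
    · obtain ⟨_, ⟨k, _, _⟩ | ⟨_, _, k⟩⟩ := c1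
      · exact absurd hin (as _ _ k)
      · exact Or.inr ⟨h, k⟩
  rcases r0 with ⟨-, r0⟩ | ⟨h0, r0⟩
  · refine red_adj hF hM hT hv hg (nb4_at R i) d0 hin d2 d3 r0 ?_ e02 n02
      (fun k => n30 (ar_symm k)) n13 n23 hd
    rcases r1 with ⟨-, r1⟩ | ⟨-, r1⟩
    · exact Or.inl r1
    · exact Or.inr r1
  · rcases r1 with ⟨-, r1⟩ | ⟨h1, r1⟩
    · refine red_adj hF hM hT hv hg (x0 := x (i + 1 + 1)) (x1 := x (i + 1)) (x2 := x i)
        (x3 := x (i + 1 + 1 + 1)) (fun u => ?_) d2 hin d0 d3 r1 (Or.inr r0) e02.symm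
        (fun k => n02 (ar_symm k)) n23 n13 (fun k => n30 (ar_symm k)) hd
      rw [nb4_at R i u]
      tauto
    · rw [h0, h1] at hcov
      rcases hcov with h | h <;> exact absurd h (by decide)

/-- **Two adjacent quad corners and two corners of type `s1` / `s2`**: impossible at a good inner
vertex of a minimal counterexample. -/
theorem red_qq [Infinite V] (hM : MCw T D a b c) (hT : Ts T D a b c) {v : V}
    (hv : ¬ Tr a b c v) (hg : Good T D v) {x : Fin 4 → V} {w : Fin 4 → CT}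
    (R : Rot T D v 3 x w) (i : Fin 4) (w0 : w i = CT.s1 ∨ w i = CT.s2)
    (w1 : w (i + 1) = CT.s1 ∨ w (i + 1) = CT.s2) (w2 : w (i + 1 + 1) = CT.q)
    (w3 : w (i + 1 + 1 + 1) = CT.q) : False := by
  rcases (R.nb _).2 ⟨i + 1, rfl⟩ with h | h
  · -- the spoke `x (i + 1)` is out: reverse all arcs
    have R' : Rot T (Rev D) v 3 x w := by
      refine ⟨R.inj, fun u => ar_rev.trans (R.nb u), fun j => ?_, fun j y hy1 hy2 =>
        R.nx j y (re_rev.1 hy1) hy2⟩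
      have hc := R.cor j
      revert hc
      cases w j
      · rintro ⟨⟨d, k1, k2, k3⟩, k4 | k4⟩
        · exact ⟨⟨d, fun k => k1 (re_rev.1 k), k2, k3⟩, Or.inr k4⟩
        · exact ⟨⟨d, fun k => k1 (re_rev.1 k), k2, k3⟩, Or.inl k4⟩
      · rintro ⟨k, ⟨k1, k2, k3⟩ | ⟨k1, k2, k3⟩⟩
        · exact ⟨k, Or.inr ⟨k1, k2, k3⟩⟩
        · exact ⟨k, Or.inl ⟨k1, k2, k3⟩⟩
      · rintro ⟨k, ⟨k1, k2, k3⟩ | ⟨k1, k2, k3⟩⟩
        · exact ⟨k, Or.inr ⟨k1, k2, k3⟩⟩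
        · exact ⟨k, Or.inl ⟨k1, k2, k3⟩⟩
      · rintro ⟨k, ⟨k1, k2, k3⟩ | ⟨k1, k2, k3⟩⟩
        · exact ⟨k, Or.inr ⟨k1, k2, k3⟩⟩
        · exact ⟨k, Or.inl ⟨k1, k2, k3⟩⟩
    exact red_qq_in (D := Rev D) (mcw_rev.2 hM) (ts_rev.2 hT) hv (good_rev.2 hg) R' i w0 w1 w2 w3 h
  · exact red_qq_in hM hT hv hg R i w0 w1 w2 w3 h

end Pool.Agent.H95.G4
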