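import Pool.Agent.H72.G4.Row
import Pool.Agent.H95.G4.AdjW
import Pool.Agent.H95.G4.Row2q2q

/-!
# The row `2q2q` (and its mirror image `1q1q`) in the form `PCok`
-/

set_option autoImplicit false

namespace Pool.Agent.H95.G4

open Relation Pool.Agent.H13.DA Pool.Agent.H72.G4 Pool.Agent.H21.G4 Pool.Agent.H13.G4
  Pool.Agent.H55.G4 Pool.Agent.H65.G4 Pool.Agent.H80.G4 Pool.Agent.H32.G4

variable {V : Type*} [DecidableEq V] {T X : Finset (V × V × V)} {D : V → V → Prop} {a b c : V}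
  {Z : List V}

/-- **Row `2q2q` / `1q1q`**: the quad corner `i + 1` is not open. `hb` : the facts of the old
digraph for the quads at `u` whose corners are inner and whose far edges are short. -/
theorem pc_2q2q [Infinite V] (hM : MCw T D a b c) (hT : Ts T D a b c)
    (hin : ∀ v, In X D Z v → ¬ Tr a b c v) {u : V} (hu : In X D Z u) (hg : Good T D u)
    (hb : ∀ o s i d, Qd T D u o s i d → In X D Z o → In X D Z s → In X D Z i → Sh T D o s →
      Sh T D s i → Pcb T D u o s i d)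
    {x : Fin 4 → V} {w : Fin 4 → CT} (R : Rot T D u 3 x w) (i : Fin 4)
    (hw : (w i = CT.s2 ∧ w (i + 1 + 1) = CT.s2) ∨ (w i = CT.s1 ∧ w (i + 1 + 1) = CT.s1))
    (w1 : w (i + 1) = CT.q) (w3 : w (i + 1 + 1 + 1) = CT.q) :
    PCok T X D Z u x (i + 1) := by
  intro f d hd hda hq ho hf hi so si
  have as := hT.pl.asymm
  have e4 := f4_wrap i
  have c0 := R.cor i
  have c1 := R.cor (i + 1)
  have c2 := R.cor (i + 1 + 1)
  have c3 := R.cor (i + 1 + 1 + 1)
  rw [w1] at c1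
  rw [w3, e4] at c3
  have n30 : ¬ Ar D (x (i + 1 + 1 + 1)) (x i) := by
    intro h3
    have h3' : Ar D (x (i + 1 + 1 + 1)) (x (i + 1 + 1 + 1 + 1)) := by rw [e4]; exact h3
    rcases R.adj hT (hin u hu) h3' with ⟨_, m⟩ | ⟨m, _⟩
    · exact m w3
    · exact absurd m (hh4 _)
  have hN := nb4_at R i
  have sh_symm : ∀ {p q : V}, Sh T D p q → Sh T D q p := by
    rintro p q ⟨z, z1, z2, z3⟩
    refine ⟨z, z1, ?_, z3.symm⟩
    have cx := hT.pl.disc.cx
    rcases z2 with k | k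
    · exact Or.inr (cx.rot k)
    · exact Or.inl (cx.rot (cx.rot k))
  rcases hq with ⟨q1, q2, q3, q4⟩ | ⟨q1, q2, q3, q4⟩
  · -- `x (i + 1)` out, `x (i + 2)` in
    have Q : Qd T D u (x (i + 1)) f (x (i + 1 + 1)) d := ⟨q1, q2, q3, q4, hd, hda⟩
    have B := hb _ _ _ _ Q ho hf hi so si
    rcases hw with ⟨k0, k2⟩ | ⟨k0, k2⟩
    · rw [k0] at c0
      rw [k2] at c2
      obtain ⟨_, ⟨a1, a2, a3⟩ | ⟨a1, a2, a3⟩⟩ := c0
      · obtain ⟨_, ⟨b1, b2, b3⟩ | ⟨b1, b2, b3⟩⟩ := c2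
        · exact as _ _ q4 b1
        · exact core_2q2q' hM hT Q hg B (hin u hu) (hin _ ho) (hin _ hi)
            (x0 := x (i + 1 + 1 + 1)) (x3 := x i) (fun z => (hN z).trans (by tauto))
            b2 a1 b3 a3 n30
      · exact as _ _ q1 a2
    · rw [k0] at c0
      rw [k2] at c2
      obtain ⟨_, ⟨a1, a2, a3⟩ | ⟨a1, a2, a3⟩⟩ := c0
      · obtain ⟨_, ⟨b1, b2, b3⟩ | ⟨b1, b2, b3⟩⟩ := c2
        · exact as _ _ q4 b1
        · exact core_2q2q hM hT Q hg B (hin u hu) (hin _ ho) (hin _ hi)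
            (x0 := x (i + 1 + 1 + 1)) (x3 := x i) (fun z => (hN z).trans (by tauto))
            b2 a1 b3 a3 n30
      · exact as _ _ q1 a2
  · -- `x (i + 1)` in, `x (i + 2)` out
    have Q : Qd T D u (x (i + 1 + 1)) f (x (i + 1)) d :=
      ⟨q4, q3, q2, q1, hd, fun y => (hda y).trans (by tauto)⟩
    have B := hb _ _ _ _ Q hi hf ho (sh_symm si) (sh_symm so)
    rcases hw with ⟨k0, k2⟩ | ⟨k0, k2⟩
    · rw [k0] at c0
      rw [k2] at c2
      obtain ⟨_, ⟨a1, a2, a3⟩ | ⟨a1, a2, a3⟩⟩ := c0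
      · exact as _ _ q1 a2
      · obtain ⟨_, ⟨b1, b2, b3⟩ | ⟨b1, b2, b3⟩⟩ := c2
        · exact core_2q2q hM hT Q hg B (hin u hu) (hin _ hi) (hin _ ho)
            (x0 := x i) (x3 := x (i + 1 + 1 + 1)) (fun z => (hN z).trans (by tauto))
            a1 b2 a3 b3 (fun k => n30 (ar_symm k))
        · exact as _ _ q4 b1
    · rw [k0] at c0
      rw [k2] at c2
      obtain ⟨_, ⟨a1, a2, a3⟩ | ⟨a1, a2, a3⟩⟩ := c0
      · exact as _ _ q1 a2
      · obtain ⟨_, ⟨b1, b2, b3⟩ | ⟨b1, b2, b3⟩⟩ := c2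
        · exact core_2q2q' hM hT Q hg B (hin u hu) (hin _ hi) (hin _ ho)
            (x0 := x i) (x3 := x (i + 1 + 1 + 1)) (fun z => (hN z).trans (by tauto))
            a1 b2 a3 b3 (fun k => n30 (ar_symm k))
        · exact as _ _ q4 b1

end Pool.Agent.H95.G4
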