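import Pool.Agent.H32.G4.Pcb
import Pool.Agent.H95.G4.Row2q2qW

/-!
# The row `2q2q` / `1q1q` in a context
-/

set_option autoImplicit false

namespace Pool.Agent.H95.G4

open Relation Pool.Agent.H13.DA Pool.Agent.H72.G4 Pool.Agent.H21.G4 Pool.Agent.H13.G4
  Pool.Agent.H55.G4 Pool.Agent.H65.G4 Pool.Agent.H80.G4 Pool.Agent.H32.G4 Pool.Agent.H96.G4

variable {V : Type*} [DecidableEq V] {T X : Finset (V × V × V)} {D : V → V → Prop} {a b c : V}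
  {Z : List V}

/-- both quad corners of a vertex with the word `2q2q` or `1q1q`, every start of the word -/
theorem pc_2q2q_ctx [Infinite V] (hM : MCw T D a b c) (hT : Ts T D a b c)
    (hC : Ctx T X D a b c Z) {u : V} (hu : In X D Z u) {x : Fin 4 → V} {w : Fin 4 → CT}
    (R : Rot T D u 3 x w) (i : Fin 4)
    (hw : (w i = CT.s2 ∧ w (i + 1 + 1) = CT.s2) ∨ (w i = CT.s1 ∧ w (i + 1 + 1) = CT.s1))
    (w1 : w (i + 1) = CT.q) (w3 : w (i + 1 + 1 + 1) = CT.q) :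
    PCok T X D Z u x (i + 1) :=
  pc_2q2q hM hT (fun _ hv => hC.reg.inner hT hv.1 hv.2.2) hu (hC.good u hu.1 hu.2.1 hu.2.2)
    (fun _ _ _ _ h h1 h2 h3 h4 h5 => pcb hM hT hC hu h1 h2 h3 h h4 h5) R i hw w1 w3

/-- **row `2q2q`, corner 1** -/
theorem pc_2q2q_1 [Infinite V] (hM : MCw T D a b c) (hT : Ts T D a b c)
    (hC : Ctx T X D a b c Z) {u : V} (hu : In X D Z u) {x : Fin 4 → V} {w : Fin 4 → CT}
    (R : Rot T D u 3 x w) (hw : [w 0, w 1, w 2, w 3] = [CT.s2, CT.q, CT.s2, CT.q]) :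
    PCok T X D Z u x 1 := by
  simp only [List.cons.injEq, and_true] at hw
  obtain ⟨w0, w1, w2, w3⟩ := hw
  exact pc_2q2q_ctx hM hT hC hu R 0 (Or.inl ⟨w0, w2⟩) w1 w3

/-- **row `2q2q`, corner 3** -/
theorem pc_2q2q_3 [Infinite V] (hM : MCw T D a b c) (hT : Ts T D a b c)
    (hC : Ctx T X D a b c Z) {u : V} (hu : In X D Z u) {x : Fin 4 → V} {w : Fin 4 → CT}
    (R : Rot T D u 3 x w) (hw : [w 0, w 1, w 2, w 3] = [CT.s2, CT.q, CT.s2, CT.q]) :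
    PCok T X D Z u x 3 := by
  simp only [List.cons.injEq, and_true] at hw
  obtain ⟨w0, w1, w2, w3⟩ := hw
  exact pc_2q2q_ctx hM hT hC hu R 2 (Or.inl ⟨w2, w0⟩) w3 w1

end Pool.Agent.H95.G4
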